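import Mathlib
import Pool.Agent.V11199.TH.Main

set_option linter.all false

namespace Pool.Agent.Results.MP_c7de0c_pr.BoundedDependence

open Pool.Agent.V11199.TH

theorem src_bot {n : ℕ} (s : ℕ) : Src s (⊥ : SimpleGraph (Slot n)) :=
  ⟨Empty, inferInstance, fun _ => ∅, fun _ => by simp, fun a b _ => by simp⟩

/-- Threshold functions for locally dependent random graphs. -/
theorem result (P : ∀ n, SimpleGraph (Fin n) → Prop) (hP : MonoProp P) :
    (∀ d : ℕ → ℕ, ∃ L : ℕ → ℝ, LowerThreshold P (fun n D => Deg (d n) D) L) ∧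
    (∀ d : ℕ → ℕ, (∃ B, ∀ n, d n ≤ B) →
      ∃ U : ℕ → ℝ, UpperThreshold P (fun n D => Deg (d n) D) U) ∧
    (∀ (s : ℕ) (d : ℕ → ℕ),
      (∃ L : ℕ → ℝ, LowerThreshold P (fun n D => Deg (d n) D ∧ Src s D) L) ∧
      (∃ U : ℕ → ℝ, UpperThreshold P (fun n D => Deg (d n) D ∧ Src s D) U)) := by
  refine ⟨fun d => ?_, fun d hd => ?_, fun s d => ⟨?_, ?_⟩⟩
  · exact lower_exists P hP _ (fun n => deg_bot (d n))
  · obtain ⟨B, hB⟩ := hd
    exact upper_exists P hP _ (fun n => deg_bot (d n)) B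
      (fun n D hD => src_of_degree (fun v => le_trans (hD v) (hB n)))
  · exact lower_exists P hP _ (fun n => ⟨deg_bot (d n), src_bot s⟩)
  · exact upper_exists P hP _ (fun n => ⟨deg_bot (d n), src_bot s⟩) s (fun n D hD => hD.2)

end Pool.Agent.Results.MP_c7de0c_pr.BoundedDependence
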